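import Pool.Agent.TH937.ZC.Fin

/-!
# Morrey's problem for `W(A) = a(det A / |A|) |A| + b(det A / |A|)` on real `2 × 2` matrices

`|A|` is the operator norm (the largest singular value), so that `det A / |A|` is the smallest
singular value with the sign of the determinant (and `0` at `A = 0`).  The functions `a, b` are
arbitrary.  Every rank-one convex function of this form is quasiconvex.
-/

set_option autoImplicit false

namespace Pool.Agent.TH937.Old.DualKernelClass

open scoped Matrix.Norms.L2Operator in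
/-- Let `W(A) = a(det A / ‖A‖) ‖A‖ + b(det A / ‖A‖)` for all real `2 × 2` matrices `A`, where
`‖A‖` is the operator norm of `A` on the Euclidean plane, `a, b` are arbitrary and `0 / 0 = 0`.
If `W` is rank-one convex then `W` is quasiconvex. -/
theorem result :
    ∀ (a b : ℝ → ℝ) (W : Matrix (Fin 2) (Fin 2) ℝ → ℝ),
      (∀ A : Matrix (Fin 2) (Fin 2) ℝ, W A = a (A.det / ‖A‖) * ‖A‖ + b (A.det / ‖A‖)) →
      (∀ F H : Matrix (Fin 2) (Fin 2) ℝ, H.rank = 1 →
        ∀ t : ℝ, 0 ≤ t → t ≤ 1 →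
          W ((1 - t) • F + t • (F + H)) ≤ (1 - t) * W F + t * W (F + H)) →
      ∀ F₀ : Matrix (Fin 2) (Fin 2) ℝ, ∀ Ω : Set (Fin 2 → ℝ),
        IsOpen Ω → Bornology.IsBounded Ω →
        ∀ ϑ : (Fin 2 → ℝ) → (Fin 2 → ℝ), (∃ K, LipschitzWith K ϑ) →
          (∀ x, x ∉ Ω → ϑ x = 0) →
          W F₀ * (MeasureTheory.volume Ω).toReal ≤
            ∫ x in Ω, W (F₀ + LinearMap.toMatrix'
              ((fderiv ℝ ϑ x : (Fin 2 → ℝ) →L[ℝ] (Fin 2 → ℝ)) :
                (Fin 2 → ℝ) →ₗ[ℝ] (Fin 2 → ℝ))) :=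
  fun a b W hW hR => Pool.Agent.TH937.ZC.main a b W hW hR

end Pool.Agent.TH937.Old.DualKernelClass
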